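import Pool.Agent.H62W.Stm

/-!
# COL: right countable injectivity for countably generated submodules of a finite free right module
-/

set_option autoImplicit false

namespace Pool.Agent.H62W

open Finset MulOpposite

universe u

namespace COL

variable {A : Type u} [Ring A]

/-- right linear combinations -/
noncomputable def L (v : ℕ → A) : (ℕ →₀ Aᵐᵒᵖ) →ₗ[Aᵐᵒᵖ] A := Finsupp.linearCombination Aᵐᵒᵖ v

theorem L_single (v : ℕ → A) (i : ℕ) (a : A) : L v (Finsupp.single i (op a)) = v i * a := by
  simp [L]

theorem L_eq (v : ℕ → A) (r : ℕ →₀ Aᵐᵒᵖ) : L v r = ∑ i ∈ r.support, v i * unop (r i) := by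
  simp [L, Finsupp.linearCombination_apply, Finsupp.sum]

theorem L_smul (v : ℕ → A) (a : A) (r : ℕ →₀ Aᵐᵒᵖ) : L v (op a • r) = L v r * a := by
  rw [map_smul]
  rfl

theorem exR (hV : VNR A) (β : ℕ → A) (k : ℕ) : ∃ R : ℕ →₀ Aᵐᵒᵖ, ∀ i < k, L β R * β i = β i := by
  induction k with
  | zero => exact ⟨0, fun i hi => absurd hi (Nat.not_lt_zero i)⟩
  | succ k ih =>
    obtain ⟨R, hR⟩ := ih
    obtain ⟨s, hs⟩ := hV (β k - L β R * β k)
    refine ⟨R + op (s * (1 - L β R)) • (Finsupp.single k (op 1) - op (β k) • R), ?_⟩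
    have hval : L β (R + op (s * (1 - L β R)) • (Finsupp.single k (op 1) - op (β k) • R)) =
        L β R + (β k - L β R * β k) * (s * (1 - L β R)) := by
      rw [map_add, L_smul, map_sub, L_smul, L_single, mul_one]
    intro i hi
    rw [hval]
    rcases Nat.lt_succ_iff_lt_or_eq.1 hi with h | rfl
    · have := hR i h
      calc (L β R + (β k - L β R * β k) * (s * (1 - L β R))) * β i
          = L β R * β i + (β k - L β R * β k) * s * (β i - L β R * β i) := by noncomm_ring
        _ = β i := by rw [this, sub_self, mul_zero, add_zero]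
    · calc (L β R + (β i - L β R * β i) * (s * (1 - L β R))) * β i
          = L β R * β i + (β i - L β R * β i) * s * (β i - L β R * β i) := by noncomm_ring
        _ = β i := by rw [hs, add_sub_cancel]

theorem L_comp (v : ℕ → A) (g : ℕ → ℕ →₀ Aᵐᵒᵖ) (r : ℕ →₀ Aᵐᵒᵖ) :
    L (fun m => L v (g m)) r = L v (Finsupp.linearCombination Aᵐᵒᵖ g r) := by
  unfold L
  rw [Finsupp.linearCombination_apply, Finsupp.linearCombination_apply Aᵐᵒᵖ (v := g), Finsupp.sum,
    Finsupp.sum, map_sum]
  exact Finset.sum_congr rfl fun i _ => (map_smul _ _ _).symm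

theorem main (hV : VNR A) (hI : RIN A) (n : ℕ) : ∀ (b : ℕ → Fin n → A) (c : ℕ → A),
    (∀ r : ℕ →₀ Aᵐᵒᵖ, (∀ l, L (fun i => b i l) r = 0) → L c r = 0) →
    ∃ x : Fin n → A, ∀ i, ∑ l, x l * b i l = c i := by
  induction n with
  | zero =>
    intro b c h
    refine ⟨fun l => l.elim0, fun i => ?_⟩
    have := h (Finsupp.single i (op 1)) (fun l => l.elim0)
    rw [L_single, mul_one] at this
    simp [this]
  | succ n ih =>
    intro b c h
    let β : ℕ → A := fun i => b i (Fin.last n)
    choose R hR using exR hV β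
    let e : ℕ × ℕ → ℕ →₀ Aᵐᵒᵖ := fun p =>
      if p.2 < p.1 then Finsupp.single p.2 (op 1) - op (β p.2) • R p.1 else 0
    have he1 : ∀ (v : ℕ → A) (k i : ℕ), i < k → L v (e (k, i)) = v i - L v (R k) * β i := by
      intro v k i hki
      have : e (k, i) = Finsupp.single i (op 1) - op (β i) • R k := if_pos hki
      rw [this, map_sub, L_smul, L_single, mul_one]
    have he : ∀ p, L β (e p) = 0 := by
      rintro ⟨k, i⟩
      by_cases hki : i < k
      · rw [he1 β k i hki, hR k i hki, sub_self]
      · have : e (k, i) = 0 := if_neg hki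
        rw [this, map_zero]
    obtain ⟨x', hx'⟩ := ih (fun m l => L (fun i => b i l.castSucc) (e m.unpair))
      (fun m => L c (e m.unpair)) (by
        intro r hr
        rw [L_comp c (fun m => e m.unpair) r]
        apply h
        intro l
        refine Fin.lastCases ?_ (fun l => ?_) l
        · show L β _ = 0
          rw [← L_comp β (fun m => e m.unpair) r, L_eq]
          exact Finset.sum_eq_zero fun i _ => by rw [he, zero_mul]
        · rw [← L_comp (fun i => b i l.castSucc) (fun m => e m.unpair) r]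
          exact hr l)
    have hstep : ∀ (s : Finset ℕ) (r : ℕ → A), ∑ i ∈ s, β i * r i = 0 →
        ∑ i ∈ s, (c i - ∑ l, x' l * b i l.castSucc) * r i = 0 := by
      intro s r hs
      obtain ⟨k, hk⟩ : ∃ k, ∀ i ∈ s, i < k :=
        ⟨s.sup id + 1, fun i hi => Nat.lt_succ_of_le (Finset.le_sup (f := id) hi)⟩
      have hv : ∀ v : ℕ → A, ∑ i ∈ s, v i * r i = ∑ i ∈ s, L v (e (k, i)) * r i := by
        intro v
        have : ∀ i ∈ s, L v (e (k, i)) * r i = v i * r i - L v (R k) * (β i * r i) := by
          intro i hi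
          rw [he1 v k i (hk i hi), sub_mul, mul_assoc]
        rw [Finset.sum_congr rfl this, Finset.sum_sub_distrib, ← Finset.mul_sum, hs, mul_zero,
          sub_zero]
      have h1 : ∀ i, ∑ l, x' l * L (fun j => b j l.castSucc) (e (k, i)) = L c (e (k, i)) := by
        intro i
        have := hx' (Nat.pair k i)
        simpa only [Nat.unpair_pair] using this
      calc ∑ i ∈ s, (c i - ∑ l, x' l * b i l.castSucc) * r i
          = ∑ i ∈ s, c i * r i - ∑ l, x' l * ∑ i ∈ s, b i l.castSucc * r i := by
            simp only [sub_mul, Finset.sum_sub_distrib, Finset.sum_mul, Finset.mul_sum, mul_assoc]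
            rw [Finset.sum_comm]
        _ = ∑ i ∈ s, L c (e (k, i)) * r i -
              ∑ l, x' l * ∑ i ∈ s, L (fun j => b j l.castSucc) (e (k, i)) * r i := by
            rw [hv c]
            congr 1
            exact Finset.sum_congr rfl fun l _ => by rw [hv (fun j => b j l.castSucc)]
        _ = ∑ i ∈ s, L c (e (k, i)) * r i -
              ∑ i ∈ s, (∑ l, x' l * L (fun j => b j l.castSucc) (e (k, i))) * r i := by
            simp only [Finset.sum_mul, Finset.mul_sum, mul_assoc]
            rw [Finset.sum_comm]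
        _ = 0 := by simp only [h1, sub_self]
    obtain ⟨y, hy⟩ := hI β _ hstep
    refine ⟨Fin.snoc x' y, fun i => ?_⟩
    rw [Fin.sum_univ_castSucc]
    simp only [Fin.snoc_castSucc, Fin.snoc_last]
    rw [show b i (Fin.last n) = β i from rfl, hy i]
    abel

end COL

theorem t_COL : S_COL := by
  intro A _ hV hI n b c h
  refine COL.main hV hI n b c ?_
  intro r hr
  rw [COL.L_eq]
  apply h
  intro l
  have := hr l
  rw [COL.L_eq] at this
  exact this

end Pool.Agent.H62W

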