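import Pool.Agent.H62W.Stm

/-!
# Project WP, piece FLA: the criterion implies flat dimension at most one
-/

set_option autoImplicit false

namespace Pool.Agent.H62W

open Finset

universe u

namespace FLA

/-- submodules of free modules are flat -/
theorem flat_of_inj {R : Type u} [Ring R] (hR : SQ R) {K ι : Type u} [AddCommGroup K] [Module R K]
    (j : K →ₗ[R] ι →₀ R) (hj : Function.Injective j) : IsFlat R K := by
  classical
  intro n r m hrel
  obtain ⟨s, hs⟩ : ∃ s : Finset ι, ∀ i, ∀ x ∉ s, j (m i) x = 0 := by
    refine ⟨Finset.univ.biUnion fun i => (j (m i)).support, fun i x hx => ?_⟩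
    by_contra h
    exact hx (Finset.mem_biUnion.2 ⟨i, Finset.mem_univ i, Finsupp.mem_support_iff.2 h⟩)
  let e : Fin s.card ≃ s := s.equivFin.symm
  let r' : Fin (n + s.card) → R := Fin.addCases r fun _ => 0
  let a : Matrix (Fin (n + s.card)) (Fin (n + s.card)) R := fun _ x => r' x
  let b : Matrix (Fin (n + s.card)) (Fin (n + s.card)) R := fun p q =>
    Fin.addCases (motive := fun _ => R)
      (fun i : Fin n => Fin.addCases (motive := fun _ => R) (fun _ => 0) (fun t => j (m i) (e t)) q)
      (fun _ => 0) p
  have hr1 : ∀ i : Fin n, r' (Fin.castAdd s.card i) = r i := fun i => Fin.addCases_left i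
  have hr2 : ∀ t : Fin s.card, r' (Fin.natAdd n t) = 0 := fun t => Fin.addCases_right t
  have hb1 : ∀ (i : Fin n) (t : Fin s.card),
      b (Fin.castAdd s.card i) (Fin.natAdd n t) = j (m i) (e t) := by
    intro i t
    show Fin.addCases (motive := fun _ => R) _ _ _ = _
    rw [Fin.addCases_left, Fin.addCases_right]
  have hb2 : ∀ (i : Fin n) (i' : Fin n), b (Fin.castAdd s.card i) (Fin.castAdd s.card i') = 0 := by
    intro i i'
    show Fin.addCases (motive := fun _ => R) _ _ _ = _
    rw [Fin.addCases_left, Fin.addCases_left]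
  have hb3 : ∀ (t : Fin s.card) (q), b (Fin.natAdd n t) q = 0 := by
    intro t q
    show Fin.addCases (motive := fun _ => R) _ _ _ = _
    rw [Fin.addCases_right]
  have hab : a * b = 0 := by
    ext p q
    rw [Matrix.mul_apply, Matrix.zero_apply, Fin.sum_univ_add]
    have h2 : ∑ t : Fin s.card, a p (Fin.natAdd n t) * b (Fin.natAdd n t) q = 0 :=
      Finset.sum_eq_zero fun t _ => by rw [hb3, mul_zero]
    rw [h2, add_zero]
    refine Fin.addCases (fun i' => ?_) (fun t => ?_) q
    · exact Finset.sum_eq_zero fun i _ => by rw [hb2, mul_zero]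
    · have h3 : ∀ i : Fin n, a p (Fin.castAdd s.card i) * b (Fin.castAdd s.card i) (Fin.natAdd n t) =
          j (r i • m i) (e t) := by
        intro i
        rw [hb1, map_smul, Finsupp.smul_apply, smul_eq_mul]
        show r' _ * _ = _
        rw [hr1]
      rw [Finset.sum_congr rfl fun i _ => h3 i, ← Finsupp.finsetSum_apply, ← map_sum, hrel, map_zero]
      rfl
  obtain ⟨E, hE1, hE2⟩ := hR _ a b hab
  refine ⟨n, fun i i' => E (Fin.castAdd s.card i) (Fin.castAdd s.card i'), m, fun i => ?_, fun i' => ?_⟩
  · apply hj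
    rw [map_sum]
    ext x
    rw [Finsupp.finsetSum_apply]
    by_cases hx : x ∈ s
    · have h1 := congrFun (congrFun hE2 (Fin.castAdd s.card i)) (Fin.natAdd n (e.symm ⟨x, hx⟩))
      rw [Matrix.mul_apply, Fin.sum_univ_add, hb1] at h1
      have h2 : ∑ t : Fin s.card, E (Fin.castAdd s.card i) (Fin.natAdd n t) *
          b (Fin.natAdd n t) (Fin.natAdd n (e.symm ⟨x, hx⟩)) = 0 :=
        Finset.sum_eq_zero fun t _ => by rw [hb3, mul_zero]
      rw [h2, add_zero, Equiv.apply_symm_apply] at h1
      rw [← h1]
      refine Finset.sum_congr rfl fun l _ => ?_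
      rw [hb1, Equiv.apply_symm_apply, map_smul, Finsupp.smul_apply, smul_eq_mul]
    · rw [hs i x hx]
      symm
      refine Finset.sum_eq_zero fun l _ => ?_
      rw [map_smul, Finsupp.smul_apply, hs l x hx, smul_zero]
  · have h1 := congrFun (congrFun hE1 (Fin.castAdd s.card i')) (Fin.castAdd s.card i')
    rw [Matrix.mul_apply, Matrix.zero_apply, Fin.sum_univ_add] at h1
    have h2 : ∑ t : Fin s.card, a (Fin.castAdd s.card i') (Fin.natAdd n t) *
        E (Fin.natAdd n t) (Fin.castAdd s.card i') = 0 :=
      Finset.sum_eq_zero fun t _ => by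
        show r' _ * _ = _
        rw [hr2, zero_mul]
    rw [h2, add_zero] at h1
    rw [← h1]
    refine Finset.sum_congr rfl fun l _ => ?_
    show _ = r' _ * _
    rw [hr1]

end FLA

open FLA in
theorem t_FLA : S_FLA := by
  intro R _ hR M _ _
  refine ⟨M →₀ R, inferInstance, inferInstance, Finsupp.linearCombination R id, ?_, ?_, ?_⟩
  · exact Finsupp.linearCombination_surjective R Function.surjective_id
  · exact flat_of_inj hR LinearMap.id Function.injective_id
  · exact flat_of_inj hR (LinearMap.ker (Finsupp.linearCombination R (id : M → M))).subtype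
      (Submodule.injective_subtype _)

end Pool.Agent.H62W
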