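import Pool.Agent.H62W.Stm

/-! Project WP, piece FLB: flat resolutions of length one give the matrix criterion. -/

set_option autoImplicit false

namespace Pool.Agent.H62W

open Finset

universe u

namespace FLB

/-- flatness for several relations -/
theorem many {R M : Type u} [Ring R] [AddCommGroup M] [Module R M] (hM : IsFlat R M) (n q : ℕ) :
    ∀ (r : Fin q → Fin n → R) (m : Fin n → M), (∀ l, ∑ i, r l i • m i = 0) →
    ∃ (k : ℕ) (c : Fin n → Fin k → R) (y : Fin k → M),
      (∀ i, m i = ∑ j, c i j • y j) ∧ ∀ l j, ∑ i, r l i * c i j = 0 := by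
  induction q with
  | zero =>
    intro r m _
    refine ⟨n, fun i j => if i = j then 1 else 0, m, fun i => ?_, fun l => l.elim0⟩
    simp
  | succ q ih =>
    intro r m h
    obtain ⟨k, c, y, h1, h2⟩ := ih (fun l => r l.succ) m (fun l => h l.succ)
    have h3 : ∑ j, (∑ i, r 0 i * c i j) • y j = 0 := by
      have h0 := h 0
      have e : ∑ i, r 0 i • m i = ∑ i, ∑ j, (r 0 i * c i j) • y j := by
        refine sum_congr rfl fun i _ => ?_
        rw [h1 i, smul_sum]
        exact sum_congr rfl fun j _ => (mul_smul _ _ _).symm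
      rw [e, sum_comm] at h0
      rw [← h0]
      exact sum_congr rfl fun j _ => sum_smul
    obtain ⟨k', c', y', h4, h5⟩ := hM k (fun j => ∑ i, r 0 i * c i j) y h3
    have key : ∀ (l : Fin (q + 1)) (j' : Fin k'), ∑ i, r l i * ∑ j, c i j * c' j j' =
        ∑ j, (∑ i, r l i * c i j) * c' j j' := by
      intro l j'
      simp_rw [mul_sum, sum_mul, mul_assoc]
      exact sum_comm
    refine ⟨k', fun i j' => ∑ j, c i j * c' j j', y', fun i => ?_, ?_⟩
    · rw [h1 i]
      have e : ∀ j', (∑ j, c i j * c' j j') • y' j' = ∑ j, c i j • c' j j' • y' j' := by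
        intro j'
        rw [sum_smul]
        exact sum_congr rfl fun j _ => mul_smul _ _ _
      rw [sum_congr rfl fun j' _ => e j', sum_comm]
      refine sum_congr rfl fun j _ => ?_
      rw [← smul_sum, ← h4 j]
    · intro l j'
      rw [key]
      refine Fin.cases ?_ (fun l => ?_) l
      · exact h5 j'
      · refine sum_eq_zero fun j _ => ?_
        have h6 : ∑ i, r l.succ i * c i j = 0 := h2 l j
        rw [h6, zero_mul]

/-- one column -/
theorem column {R : Type u} [Ring R]
    (hR : ∀ (M : Type u) [AddCommGroup M] [Module R M], FD1 R M) (n q : ℕ)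
    (a : Fin q → Fin n → R) (v : Fin n → R) (h : ∀ l, ∑ i, a l i * v i = 0) :
    ∃ E : Fin n → Fin n → R, (∀ l i', ∑ i, a l i * E i i' = 0) ∧
      ∀ i, ∑ i', E i i' * v i' = v i := by
  obtain ⟨J, hJ⟩ : ∃ J : Submodule R R, J = Submodule.span R (Set.range v) := ⟨_, rfl⟩
  obtain ⟨F, _, _, π, hπ, hF, hK⟩ := hR (R ⧸ J)
  obtain ⟨f, hf⟩ := hπ (Submodule.Quotient.mk 1)
  have hvJ : ∀ i, v i ∈ J := fun i => by
    rw [hJ]
    exact Submodule.subset_span ⟨i, rfl⟩
  have hvf : ∀ i, v i • f ∈ LinearMap.ker π := by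
    intro i
    rw [LinearMap.mem_ker, map_smul, hf, ← Submodule.Quotient.mk_smul, smul_eq_mul, mul_one,
      Submodule.Quotient.mk_eq_zero]
    exact hvJ i
  obtain ⟨m, c, k, h1, h2⟩ := many hK n q a (fun i => (⟨v i • f, hvf i⟩ : LinearMap.ker π))
    (fun l => by
      apply Subtype.ext
      rw [AddSubmonoidClass.coe_finset_sum]
      show ∑ i, a l i • (v i • f) = 0
      have e : ∑ i, a l i • (v i • f) = (∑ i, a l i * v i) • f := by
        rw [sum_smul]
        exact sum_congr rfl fun i _ => (mul_smul _ _ _).symm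
      rw [e, h l, zero_smul])
  have h1' : ∀ i, v i • f = ∑ j, c i j • (k j : F) := by
    intro i
    have h3 := congrArg (fun z : LinearMap.ker π => (z : F)) (h1 i)
    simp only [AddSubmonoidClass.coe_finset_sum, Submodule.coe_smul] at h3
    exact h3
  obtain ⟨p, s, g, h3, h4⟩ := many hF (m + 1) n
    (fun i => Fin.cons (v i) fun j => -c i j) (Fin.cons f fun j => (k j : F)) (fun i => by
      rw [Fin.sum_univ_succ]
      simp only [Fin.cons_zero, Fin.cons_succ, neg_smul, sum_neg_distrib]
      rw [h1' i]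
      exact add_neg_cancel _)
  have hf2 : f = ∑ l, s 0 l • g l := h3 0
  have hk2 : ∀ j : Fin m, (k j : F) = ∑ l, s j.succ l • g l := fun j => h3 j.succ
  have h4' : ∀ i l, v i * s 0 l = ∑ j : Fin m, c i j * s j.succ l := by
    intro i l
    have h5 := h4 i l
    rw [Fin.sum_univ_succ] at h5
    simp only [Fin.cons_zero, Fin.cons_succ, neg_mul, sum_neg_distrib] at h5
    exact add_neg_eq_zero.1 h5
  have h6 : ∀ l, ∃ z : R, Submodule.Quotient.mk z = π (g l) := fun l =>
    Submodule.Quotient.mk_surjective J _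
  choose g' hg' using h6
  have hmk : ∀ w : Fin p → R, π (∑ l, w l • g l) =
      (Submodule.Quotient.mk (∑ l, w l * g' l) : R ⧸ J) := by
    intro w
    rw [map_sum]
    have e : ∀ l, π (w l • g l) = Submodule.mkQ J (w l * g' l) := by
      intro l
      rw [map_smul, ← hg' l, ← Submodule.Quotient.mk_smul, smul_eq_mul]
      rfl
    rw [sum_congr rfl fun l _ => e l, ← map_sum]
    rfl
  have h7 : 1 - ∑ l, s 0 l * g' l ∈ J := by
    rw [← Submodule.Quotient.eq, ← hmk, ← hf2, hf]
  have h8 : ∀ j : Fin m, ∑ l, s j.succ l * g' l ∈ J := by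
    intro j
    rw [← Submodule.Quotient.mk_eq_zero, ← hmk, ← hk2]
    exact (k j).2
  rw [hJ, Submodule.mem_span_range_iff_exists_fun] at h7
  obtain ⟨hh, h7⟩ := h7
  have h9 : ∀ j : Fin m, ∃ d : Fin n → R, ∑ i, d i • v i = ∑ l, s j.succ l * g' l := by
    intro j
    have h10 := h8 j
    rw [hJ, Submodule.mem_span_range_iff_exists_fun] at h10
    exact h10
  choose d hd using h9
  simp only [smul_eq_mul] at h7 hd
  refine ⟨fun i i' => ∑ j, c i j * d j i' + v i * hh i', fun l i' => ?_, fun i => ?_⟩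
  · simp_rw [mul_add, sum_add_distrib]
    have e1 : ∑ i, a l i * ∑ j, c i j * d j i' = ∑ j, (∑ i, a l i * c i j) * d j i' := by
      simp_rw [mul_sum, sum_mul, mul_assoc]
      exact sum_comm
    have e2 : ∑ i, a l i * (v i * hh i') = (∑ i, a l i * v i) * hh i' := by
      rw [sum_mul]
      exact sum_congr rfl fun i _ => (mul_assoc _ _ _).symm
    rw [e1, e2, h l, zero_mul, add_zero]
    refine sum_eq_zero fun j _ => ?_
    rw [h2 l j, zero_mul]
  · simp_rw [add_mul, sum_add_distrib]
    have e1 : ∑ i', (∑ j, c i j * d j i') * v i' = ∑ j, c i j * ∑ i', d j i' * v i' := by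
      simp_rw [mul_sum, sum_mul, mul_assoc]
      exact sum_comm
    have e2 : ∑ i', v i * hh i' * v i' = v i * ∑ i', hh i' * v i' := by
      rw [mul_sum]
      exact sum_congr rfl fun i _ => mul_assoc _ _ _
    have e3 : ∑ j, c i j * ∑ l, s j.succ l * g' l = v i * ∑ l, s 0 l * g' l := by
      have e4 : ∑ j, c i j * ∑ l, s j.succ l * g' l =
          ∑ l, (∑ j : Fin m, c i j * s j.succ l) * g' l := by
        simp_rw [mul_sum, sum_mul, mul_assoc]
        exact sum_comm
      rw [e4, mul_sum]
      refine sum_congr rfl fun l _ => ?_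
      rw [← h4' i l, mul_assoc]
    rw [e1, e2, h7, sum_congr rfl fun j _ => by rw [hd j], e3, mul_sub, mul_one]
    abel

end FLB

theorem t_FLB : S_FLB := by
  intro R _ hR n a b hab
  have key : ∀ s : Finset (Fin n), ∃ E : Matrix (Fin n) (Fin n) R, a * E = 0 ∧
      ∀ x ∈ s, ∀ i, (E * b) i x = b i x := by
    intro s
    induction s using Finset.induction_on with
    | empty => exact ⟨0, Matrix.mul_zero _, fun x hx => absurd hx (notMem_empty x)⟩
    | insert x s hx ih =>
      obtain ⟨E₁, h1, h2⟩ := ih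
      obtain ⟨E₂, h3, h4⟩ := FLB.column hR n n a (fun i => (b - E₁ * b) i x) (fun l => by
        show (a * (b - E₁ * b)) l x = 0
        rw [Matrix.mul_sub, ← Matrix.mul_assoc, h1, hab, Matrix.zero_mul, sub_zero]
        rfl)
      have h3' : a * (Matrix.of E₂) = 0 := by
        ext l i'
        exact h3 l i'
      have h4' : ∀ i, (Matrix.of E₂ * (b - E₁ * b)) i x = (b - E₁ * b) i x := h4
      refine ⟨E₁ + Matrix.of E₂ - Matrix.of E₂ * E₁, ?_, ?_⟩
      · rw [Matrix.mul_sub, Matrix.mul_add, ← Matrix.mul_assoc, h1, h3', Matrix.zero_mul]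
        simp
      · have e : (E₁ + Matrix.of E₂ - Matrix.of E₂ * E₁) * b =
            E₁ * b + Matrix.of E₂ * (b - E₁ * b) := by
          rw [Matrix.sub_mul, Matrix.add_mul, Matrix.mul_sub, Matrix.mul_assoc]
          abel
        intro y hy i
        rw [e, Matrix.add_apply]
        rcases Finset.mem_insert.1 hy with rfl | hy
        · rw [h4' i, Matrix.sub_apply]
          abel
        · have h5 : (Matrix.of E₂ * (b - E₁ * b)) i y = 0 := by
            rw [Matrix.mul_apply]
            refine sum_eq_zero fun i' _ => ?_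
            rw [Matrix.sub_apply, h2 y hy i', sub_self, mul_zero]
          rw [h5, add_zero, h2 y hy i]
  obtain ⟨E, h1, h2⟩ := key univ
  refine ⟨E, h1, ?_⟩
  ext i x
  exact h2 x (mem_univ x) i

end Pool.Agent.H62W
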