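import Pool.Agent.H62W.Stm

set_option autoImplicit false

namespace Pool.Agent.H62W

open Finset

universe u

namespace MSQ

variable {A : Type u} [Ring A] {n : ℕ}

/-- the coefficients of a matrix of power series -/
noncomputable def Φ (a : Matrix (Fin n) (Fin n) (PowerSeries A)) (k : ℕ) : Matrix (Fin n) (Fin n) A :=
  fun i j => PowerSeries.coeff k (a i j)

/-- the matrix of power series with the given coefficients -/
noncomputable def Ψ (f : ℕ → Matrix (Fin n) (Fin n) A) : Matrix (Fin n) (Fin n) (PowerSeries A) :=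
  fun i j => PowerSeries.mk fun k => f k i j

theorem Φ_Ψ (f : ℕ → Matrix (Fin n) (Fin n) A) : Φ (Ψ f) = f := by
  funext k
  ext i j
  exact PowerSeries.coeff_mk _ _

theorem Φ_inj {a b : Matrix (Fin n) (Fin n) (PowerSeries A)} (h : ∀ k, Φ a k = Φ b k) : a = b := by
  ext i j k
  exact congrFun (congrFun (h k) i) j

theorem Φ_zero (k : ℕ) : Φ (0 : Matrix (Fin n) (Fin n) (PowerSeries A)) k = 0 := by
  ext i j
  exact map_zero _

theorem Φ_mul (a b : Matrix (Fin n) (Fin n) (PowerSeries A)) (k : ℕ) :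
    Φ (a * b) k = cv (Φ a) (Φ b) k := by
  ext i j
  unfold cv
  rw [Matrix.sum_apply]
  change PowerSeries.coeff k ((a * b) i j) = _
  rw [Matrix.mul_apply, map_sum]
  simp only [PowerSeries.coeff_mul]
  rw [Finset.sum_comm]
  refine Finset.sum_congr rfl fun p _ => ?_
  rw [Matrix.mul_apply]
  rfl

theorem mul_Ψ (a b : ℕ → Matrix (Fin n) (Fin n) A) (k : ℕ) :
    Φ (Ψ a * Ψ b) k = cv a b k := by
  rw [Φ_mul, Φ_Ψ, Φ_Ψ]

end MSQ

open MSQ in
theorem t_MSQ : S_MSQ := by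
  intro A _
  constructor
  · intro h n a b hab
    obtain ⟨E, h1, h2⟩ := h n (Ψ a) (Ψ b) (Φ_inj fun k => by rw [mul_Ψ, hab k, Φ_zero])
    refine ⟨Φ E, fun k => ?_, fun k => ?_⟩
    · have := Φ_mul (Ψ a) E k
      rw [h1, Φ_zero, Φ_Ψ] at this
      exact this.symm
    · have := Φ_mul E (Ψ b) k
      rw [h2, Φ_Ψ] at this
      exact this.symm
  · intro h n a b hab
    obtain ⟨E, h1, h2⟩ := h n (Φ a) (Φ b) fun k => by rw [← Φ_mul, hab, Φ_zero]
    refine ⟨Ψ E, Φ_inj fun k => ?_, Φ_inj fun k => ?_⟩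
    · rw [Φ_mul, Φ_Ψ, h1, Φ_zero]
    · rw [Φ_mul, Φ_Ψ, h2]

end Pool.Agent.H62W
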