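import Pool.Agent.H62W.Stm

/-!
# Project WP: countable interpolation (`S_NEC`)
-/

set_option autoImplicit false

namespace Pool.Agent.H62W

open Finset MulOpposite

universe u

theorem NEC_right {S : Type u} [Ring S] {E p : ℕ → S} (hp : Orth p) (h : ∀ k, cv E p k = p k) (k : ℕ) :
    E 0 * p k = p k := by
  have h1 : cv E p k * p k = E 0 * p k := by
    unfold cv
    rw [sum_mul, sum_eq_single ((0 : ℕ), k)]
    · rw [mul_assoc, hp.1 k]
    · rintro ⟨i, j⟩ hij hne
      rw [HasAntidiagonal.mem_antidiagonal] at hij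
      simp only at hij ⊢
      have hj : j ≠ k := by
        intro hjk
        apply hne
        have hi : i = 0 := by omega
        rw [hi, hjk]
      rw [mul_assoc, hp.2 j k hj, mul_zero]
    · intro hn
      exact absurd (HasAntidiagonal.mem_antidiagonal.2 (by simp)) hn
  rw [← h1, h k, hp.1 k]

theorem NEC_left {S : Type u} [Ring S] {E q : ℕ → S} (hq : Orth q) (h : ∀ k, cv q E k = 0) (k : ℕ) :
    q k * E 0 = 0 := by
  have h1 : q k * cv q E k = q k * E 0 := by
    unfold cv
    rw [mul_sum, sum_eq_single (k, (0 : ℕ))]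
    · rw [← mul_assoc, hq.1 k]
    · rintro ⟨i, j⟩ hij hne
      rw [HasAntidiagonal.mem_antidiagonal] at hij
      simp only at hij ⊢
      have hi : k ≠ i := by
        intro hik
        apply hne
        have hj : j = 0 := by omega
        rw [hj, ← hik]
      rw [← mul_assoc, hq.2 k i hi, zero_mul]
    · intro hn
      exact absurd (HasAntidiagonal.mem_antidiagonal.2 (by simp)) hn
  rw [← h1, h k, mul_zero]

theorem t_NEC (h : S_ORT.{u}) : S_NEC.{u} := by
  intro S _ hV hW a b hab
  obtain ⟨q, hq, hq1, hq2⟩ := (h S hV a).1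
  obtain ⟨p, hp, hp1, hp2⟩ := (h S hV b).2
  have hqb : ∀ i j, q i * b j = 0 := fun i j => hq2 (b j) (fun k => hab k j) i
  have hqp : ∀ i j, q i * p j = 0 := fun i j => hp2 (q i) (fun k => hqb i k) j
  obtain ⟨E, hE1, hE2⟩ := hW q p fun k => sum_eq_zero fun x _ => hqp x.1 x.2
  refine ⟨E 0, fun i => ?_, fun j => ?_⟩
  · rw [← hq1 i, mul_assoc, sum_mul, sum_eq_zero fun l _ => NEC_left hq hE1 l, mul_zero]
  · rw [← hp1 j, ← mul_assoc, mul_sum, sum_congr rfl fun l _ => NEC_right hp hE2 l]

end Pool.Agent.H62W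

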