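import Pool.Agent.H62W.Stm

/-!
# NFL: a module over `A⟦X⟧` which is not flat
-/

set_option autoImplicit false

namespace Pool.Agent.H62W

universe u

theorem t_NFL : S_NFL.{u} := by
  intro A _ _
  let I : Submodule (PowerSeries A) (PowerSeries A) :=
    Submodule.span (PowerSeries A) {PowerSeries.X}
  have hX : (PowerSeries.X : PowerSeries A) ∈ I := Submodule.subset_span (Set.mem_singleton _)
  refine ⟨PowerSeries A ⧸ I, inferInstance, inferInstance, fun h => ?_⟩
  have hrel : ∑ _i : Fin 1, (PowerSeries.X : PowerSeries A) •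
      (Submodule.Quotient.mk 1 : PowerSeries A ⧸ I) = 0 := by
    rw [Fin.sum_univ_one, ← Submodule.Quotient.mk_smul, smul_eq_mul, mul_one,
      Submodule.Quotient.mk_eq_zero]
    exact hX
  obtain ⟨k, c, y, h1, h2⟩ := h 1 (fun _ => PowerSeries.X) (fun _ => Submodule.Quotient.mk 1) hrel
  have hc : ∀ j, c 0 j = 0 := by
    intro j
    have h3 := h2 j
    rw [Fin.sum_univ_one] at h3
    ext n
    rw [← PowerSeries.coeff_succ_X_mul, h3, map_zero, map_zero]
  have h4 := h1 0
  simp only [hc, zero_smul, Finset.sum_const_zero] at h4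
  rw [Submodule.Quotient.mk_eq_zero, Submodule.mem_span_singleton] at h4
  obtain ⟨g, hg⟩ := h4
  have h5 := congrArg (PowerSeries.coeff 0) hg
  rw [smul_eq_mul, PowerSeries.coeff_zero_mul_X, PowerSeries.coeff_zero_one] at h5
  exact zero_ne_one h5

end Pool.Agent.H62W
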