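import Pool.Agent.H62W.Stm

/-!
# Piece OPP: opposite rings
-/

set_option autoImplicit false

namespace Pool.Agent.H62W

open Finset MulOpposite

universe u

theorem opp_cv {S : Type u} [Ring S] (a b : ℕ → Sᵐᵒᵖ) (k : ℕ) :
    unop (cv a b k) = cv (fun i => unop (b i)) (fun i => unop (a i)) k := by
  unfold cv
  rw [unop_sum]
  simp only [unop_mul]
  exact Finset.Nat.sum_antidiagonal_swap (n := k)
    (f := fun p : ℕ × ℕ => unop (b p.1) * unop (a p.2))

theorem opp_cv_one_right {S : Type u} [Ring S] (a : ℕ → S) (k : ℕ) :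
    cv a (fun i => if i = 0 then 1 else 0) k = a k := by
  unfold cv
  rw [Finset.sum_eq_single (k, 0)]
  · simp
  · rintro ⟨i, j⟩ hij hne
    have h0 : j ≠ 0 := by
      rintro rfl
      apply hne
      have := HasAntidiagonal.mem_antidiagonal.1 hij
      rw [Prod.mk.injEq]
      exact ⟨by simpa using this, rfl⟩
    simp [h0]
  · intro h
    exact absurd (HasAntidiagonal.mem_antidiagonal.2 (by simp)) h

theorem opp_cv_one_left {S : Type u} [Ring S] (a : ℕ → S) (k : ℕ) :
    cv (fun i => if i = 0 then 1 else 0) a k = a k := by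
  unfold cv
  rw [Finset.sum_eq_single (0, k)]
  · simp
  · rintro ⟨i, j⟩ hij hne
    have h0 : i ≠ 0 := by
      rintro rfl
      apply hne
      have := HasAntidiagonal.mem_antidiagonal.1 hij
      rw [Prod.mk.injEq]
      exact ⟨rfl, by simpa using this⟩
    simp [h0]
  · intro h
    exact absurd (HasAntidiagonal.mem_antidiagonal.2 (by simp)) h

theorem opp_rip {R S : Type u} [Ring R] [Ring S] (e : R ≃+* S) (h : RIP R) : RIP S := by
  intro p c hp
  obtain ⟨x, hx⟩ := h (fun i => e.symm (p i)) (fun i => e.symm (c i))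
    ⟨fun i => by rw [← map_mul, hp.1 i], fun i j hij => by rw [← map_mul, hp.2 i j hij, map_zero]⟩
  refine ⟨e x, fun i => ?_⟩
  have h1 := congrArg e (hx i)
  rw [map_mul, map_mul, e.apply_symm_apply, e.apply_symm_apply] at h1
  exact h1

theorem t_OPP : S_OPP := by
  refine ⟨?_, ?_, ?_, ?_⟩
  · intro S _ hW a b hab
    obtain ⟨F, hF1, hF2⟩ := hW (fun i => op (b i)) (fun i => op (a i)) (fun k => by
      apply unop_injective
      rw [opp_cv, unop_zero]
      exact hab k)
    have h1 : ∀ k, cv (fun i => unop (F i)) b k = 0 := fun k => by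
      have := congrArg unop (hF1 k)
      rw [opp_cv, unop_zero] at this
      exact this
    have h2 : ∀ k, cv a (fun i => unop (F i)) k = a k := fun k => by
      have := congrArg unop (hF2 k)
      rw [opp_cv] at this
      exact this
    refine ⟨fun i => (if i = 0 then 1 else 0) - unop (F i), fun k => ?_, fun k => ?_⟩
    · have h3 : cv a (fun i => (if i = 0 then 1 else 0) - unop (F i)) k =
          cv a (fun i => if i = 0 then 1 else 0) k - cv a (fun i => unop (F i)) k := by
        unfold cv
        rw [← Finset.sum_sub_distrib]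
        exact Finset.sum_congr rfl fun p _ => mul_sub _ _ _
      rw [h3, opp_cv_one_right, h2, sub_self]
    · have h3 : cv (fun i => (if i = 0 then 1 else 0) - unop (F i)) b k =
          cv (fun i => if i = 0 then 1 else 0) b k - cv (fun i => unop (F i)) b k := by
        unfold cv
        rw [← Finset.sum_sub_distrib]
        exact Finset.sum_congr rfl fun p _ => sub_mul _ _ _
      rw [h3, opp_cv_one_left, h1, sub_zero]
  · intro S _ hI a b hab
    obtain ⟨E, hE1, hE2⟩ := hI (fun i => unop (b i)) (fun i => unop (a i)) (fun i j => by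
      rw [← unop_mul, hab j i, unop_zero])
    refine ⟨op (1 - E), fun i => ?_, fun j => ?_⟩
    · apply unop_injective
      rw [unop_mul, unop_op, unop_zero, sub_mul, one_mul, hE2 i, sub_self]
    · apply unop_injective
      rw [unop_mul, unop_op, mul_sub, mul_one, hE1 j, sub_zero]
  · intro S _ hV a
    obtain ⟨s, hs⟩ := hV (unop a)
    refine ⟨op s, ?_⟩
    apply unop_injective
    rw [unop_mul, unop_mul, unop_op, ← mul_assoc, hs]
  · intro A _ n h
    exact opp_rip (RingEquiv.mopMatrix : Matrix (Fin n) (Fin n) Aᵐᵒᵖ ≃+* _) h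

end Pool.Agent.H62W
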