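import Pool.Agent.H62W.Stm

/-!
# Project WP, piece ORT (helper63): orthogonalization
-/

set_option autoImplicit false

namespace Pool.Agent.H62W

open Finset MulOpposite

universe u

namespace ORT

variable {S : Type u} [Ring S]

/-- the new idempotent -/
def nw (s : S → S) (Q a : S) : S := (1 - Q) * (s (a * (1 - Q)) * (a * (1 - Q)))

theorem nw_props (s : S → S) (hs : ∀ a, a * s a * a = a) (Q a : S) (hQ : Q * Q = Q) :
    Q * nw s Q a = 0 ∧ nw s Q a * Q = 0 ∧ nw s Q a * nw s Q a = nw s Q a ∧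
      a * (Q + nw s Q a) = a ∧ ∀ z, Q * z = 0 → a * z = 0 → nw s Q a * z = 0 := by
  obtain ⟨β, hβ⟩ : ∃ β, β = a * (1 - Q) := ⟨_, rfl⟩
  have h1 : Q * (1 - Q) = 0 := by rw [mul_sub, mul_one, hQ, sub_self]
  have h2 : (1 - Q) * Q = 0 := by rw [sub_mul, one_mul, hQ, sub_self]
  have h3 : (1 - Q) * (1 - Q) = 1 - Q := by rw [mul_sub, mul_one, h2, sub_zero]
  have hg : s β * β * (s β * β) = s β * β := by
    calc s β * β * (s β * β) = s β * (β * s β * β) := by simp only [mul_assoc]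
      _ = s β * β := by rw [hs]
  have hβQ : β * Q = 0 := by rw [hβ, mul_assoc, h2, mul_zero]
  have hβ1 : β * (1 - Q) = β := by rw [mul_sub, mul_one, hβQ, sub_zero]
  have hnw : nw s Q a = (1 - Q) * (s β * β) := by rw [nw, ← hβ]
  refine ⟨?_, ?_, ?_, ?_, fun z hz ha => ?_⟩
  · rw [hnw, ← mul_assoc, h1, zero_mul]
  · rw [hnw, mul_assoc, mul_assoc, hβQ, mul_zero, mul_zero]
  · have h4 : s β * β * (1 - Q) = s β * β := by rw [mul_assoc, hβ1]
    rw [hnw]
    calc (1 - Q) * (s β * β) * ((1 - Q) * (s β * β))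
        = (1 - Q) * (s β * β * (1 - Q) * (s β * β)) := by simp only [mul_assoc]
      _ = (1 - Q) * (s β * β) := by rw [h4, hg]
  · rw [hnw, mul_add, ← mul_assoc a, ← hβ]
    have h5 : β * (s β * β) = β := by rw [← mul_assoc, hs]
    rw [h5, hβ, mul_sub, mul_one, add_sub_cancel]
  · have h6 : β * z = 0 := by rw [hβ, mul_assoc, sub_mul, one_mul, hz, sub_zero, ha]
    rw [hnw, mul_assoc, mul_assoc, h6, mul_zero, mul_zero]

/-- the partial sums -/
def QQ (s : S → S) (α : ℕ → S) : ℕ → S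
  | 0 => 0
  | k + 1 => QQ s α k + nw s (QQ s α k) (α k)

theorem half (h : VNR S) (α : ℕ → S) :
    ∃ q : ℕ → S, Orth q ∧ (∀ k, α k * ∑ j ∈ range (k + 1), q j = α k) ∧
      ∀ z, (∀ k, α k * z = 0) → ∀ k, q k * z = 0 := by
  choose s hs using h
  have hid : ∀ k, QQ s α k * QQ s α k = QQ s α k := by
    intro k
    induction k with
    | zero => exact mul_zero _
    | succ k ih =>
      obtain ⟨e1, e2, e3, -, -⟩ := nw_props s hs (QQ s α k) (α k) ih
      rw [QQ, add_mul, mul_add, mul_add, ih, e1, e2, e3, add_zero, zero_add]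
  have hp := fun k => nw_props s hs (QQ s α k) (α k) (hid k)
  obtain ⟨q, hq⟩ : ∃ q : ℕ → S, ∀ k, q k = nw s (QQ s α k) (α k) := ⟨_, fun _ => rfl⟩
  have hsucc : ∀ k, QQ s α (k + 1) = QQ s α k + q k := fun k => by rw [QQ, hq]
  have hsum : ∀ k, ∑ j ∈ range k, q j = QQ s α k := by
    intro k
    induction k with
    | zero => rfl
    | succ k ih => rw [Finset.sum_range_succ, ih, hsucc]
  have hQq : ∀ k, QQ s α k * q k = 0 := fun k => by rw [hq]; exact (hp k).1
  have hqQ : ∀ k, q k * QQ s α k = 0 := fun k => by rw [hq]; exact (hp k).2.1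
  have hqq : ∀ k, q k * q k = q k := fun k => by rw [hq]; exact (hp k).2.2.1
  have hlt : ∀ k i, i < k → QQ s α k * q i = q i ∧ q i * QQ s α k = q i := by
    intro k
    induction k with
    | zero => intro i hi; exact absurd hi (Nat.not_lt_zero i)
    | succ k ih =>
      intro i hi
      rcases Nat.lt_succ_iff_lt_or_eq.1 hi with h1 | h1
      · obtain ⟨h2, h3⟩ := ih i h1
        have h4 : q k * q i = 0 := by rw [← h2, ← mul_assoc, hqQ, zero_mul]
        have h5 : q i * q k = 0 := by rw [← h3, mul_assoc, hQq, mul_zero]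
        rw [hsucc, add_mul, mul_add, h2, h3, h4, h5, add_zero]
        exact ⟨rfl, rfl⟩
      · subst h1
        rw [hsucc, add_mul, mul_add, hQq, hqQ, hqq, zero_add]
        exact ⟨rfl, rfl⟩
  refine ⟨q, ⟨hqq, fun i j hij => ?_⟩, fun k => ?_, fun z hz => ?_⟩
  · rcases lt_or_gt_of_ne hij with h1 | h1
    · obtain ⟨-, h3⟩ := hlt j i h1
      rw [← h3, mul_assoc, hQq, mul_zero]
    · obtain ⟨h2, -⟩ := hlt i j h1
      rw [← h2, ← mul_assoc, hqQ, zero_mul]
  · rw [hsum, hsucc, hq]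
    exact (hp k).2.2.2.1
  · have hz0 : ∀ k, QQ s α k * z = 0 := by
      intro k
      induction k with
      | zero => exact zero_mul _
      | succ k ih =>
        rw [QQ, add_mul, ih, (hp k).2.2.2.2 z ih (hz k), add_zero]
    intro k
    rw [hq]
    exact (hp k).2.2.2.2 z (hz0 k) (hz k)

end ORT

/-- **ORT** -/
theorem t_ORT : S_ORT := by
  intro S _ h α
  refine ⟨ORT.half h α, ?_⟩
  have h' : VNR Sᵐᵒᵖ := fun a => by
    obtain ⟨s, hs⟩ := h (unop a)
    refine ⟨op s, unop_injective ?_⟩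
    rw [unop_mul, unop_mul, unop_op, ← mul_assoc]
    exact hs
  obtain ⟨q, ⟨q1, q2⟩, q3, q4⟩ := ORT.half h' (fun k => op (α k))
  refine ⟨fun k => unop (q k), ⟨fun i => ?_, fun i j hij => ?_⟩, fun k => ?_, fun z hz k => ?_⟩
  · rw [← unop_mul, q1]
  · rw [← unop_mul, q2 j i hij.symm, unop_zero]
  · have := congrArg unop (q3 k)
    rw [unop_mul, unop_op] at this
    have h5 : unop (∑ j ∈ range (k + 1), q j) = ∑ j ∈ range (k + 1), unop (q j) :=
      map_sum (opAddEquiv.symm : Sᵐᵒᵖ ≃+ S) q (range (k + 1))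
    rw [h5] at this
    exact this
  · have := q4 (op z) (fun k => by rw [← op_mul, hz, op_zero]) k
    have h6 := congrArg unop this
    rw [unop_mul, unop_op, unop_zero] at h6
    exact h6

end Pool.Agent.H62W
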