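import Pool.Agent.H62W.Stm

set_option autoImplicit false

namespace Pool.Agent.H62W

universe u

theorem t_REG : S_REG.{u} := by
  intro A _ hSQ α
  have hab : (!![(PowerSeries.C α : PowerSeries A), PowerSeries.X; 0, 0] : Matrix (Fin 2) (Fin 2) (PowerSeries A)) *
      !![(PowerSeries.X : PowerSeries A), 0; -PowerSeries.C α, 0] = 0 := by
    have hc : (PowerSeries.C α : PowerSeries A) * PowerSeries.X = PowerSeries.X * PowerSeries.C α :=
      (PowerSeries.commute_X _).eq
    ext i j
    fin_cases i <;> fin_cases j <;> simp [Matrix.mul_apply, Fin.sum_univ_two, hc]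
  obtain ⟨E, h1, h2⟩ := hSQ 2 _ _ hab
  have e1 := congrFun (congrFun h1 0) 0
  have e2 := congrFun (congrFun h2 0) 0
  simp only [Matrix.mul_apply, Fin.sum_univ_two, Matrix.of_apply, Matrix.cons_val', Matrix.cons_val_zero,
    Matrix.cons_val_one, Matrix.zero_apply, Matrix.cons_val_fin_one] at e1 e2
  have f1 := congrArg (PowerSeries.coeff 0) e1
  have f2 := congrArg (PowerSeries.coeff 1) e2
  rw [mul_neg] at f2
  rw [map_add, map_neg, PowerSeries.coeff_mul_C, PowerSeries.coeff_succ_mul_X, PowerSeries.coeff_one_X] at f2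
  rw [map_add, PowerSeries.coeff_C_mul, PowerSeries.coeff_zero_X_mul, map_zero, add_zero] at f1
  refine ⟨-(PowerSeries.coeff 1 (E 0 1)), ?_⟩
  have f3 : PowerSeries.coeff 0 (E 0 0) = 1 + PowerSeries.coeff 1 (E 0 1) * α := by
    rw [← f2]; abel
  rw [f3, mul_add, mul_one] at f1
  have f4 : α = -(α * (PowerSeries.coeff 1 (E 0 1) * α)) := eq_neg_of_add_eq_zero_left f1
  rw [mul_neg, neg_mul, mul_assoc]
  exact f4.symm

end Pool.Agent.H62W
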