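import Pool.Agent.H62W.Stm

/-!
# Project WP, piece RIM (helper51): matrix rings
-/

set_option autoImplicit false

namespace Pool.Agent.H62W

open Finset MulOpposite

universe u

/-- **RIM** -/
theorem t_RIM (h : S_COL.{u}) : S_RIM.{u} := by
  intro A _ hV hR n p c hp
  rcases Nat.eq_zero_or_pos n with rfl | hn
  · exact ⟨0, fun i => Subsingleton.elim _ _⟩
  obtain ⟨hp1, hp2⟩ := hp
  obtain ⟨t, ht⟩ : ∃ t : ℕ → Fin n, ∀ m, (t m : ℕ) = m % n :=
    ⟨fun m => ⟨m % n, Nat.mod_lt _ hn⟩, fun _ => rfl⟩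
  have hrow : ∀ s : Fin n, ∃ x : Fin n → A, ∀ m : ℕ,
      ∑ l, x l * p (m / n) l (t m) = (c (m / n) * p (m / n)) s (t m) := by
    intro s
    refine h A hV hR n (fun m l => p (m / n) l (t m)) (fun m => (c (m / n) * p (m / n)) s (t m)) ?_
    intro F r hrel
    have key : ∀ i₀ l', ∑ m ∈ F with m / n = i₀, p i₀ l' (t m) * r m = 0 := by
      intro i₀ l'
      have h1 : ∑ l, p i₀ l' l * ∑ m ∈ F, p (m / n) l (t m) * r m = 0 := by
        refine Finset.sum_eq_zero fun l _ => ?_
        rw [hrel l, mul_zero]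
      rw [← h1]
      have h2 : ∀ l, p i₀ l' l * ∑ m ∈ F, p (m / n) l (t m) * r m =
          ∑ m ∈ F, p i₀ l' l * (p (m / n) l (t m) * r m) := fun l => Finset.mul_sum _ _ _
      rw [Finset.sum_congr rfl fun l _ => h2 l, Finset.sum_comm, Finset.sum_filter]
      refine Finset.sum_congr rfl fun m _ => ?_
      have h3 : ∑ l, p i₀ l' l * (p (m / n) l (t m) * r m) = (p i₀ * p (m / n)) l' (t m) * r m := by
        rw [Matrix.mul_apply, Finset.sum_mul]
        exact Finset.sum_congr rfl fun l _ => (mul_assoc _ _ _).symm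
      rw [h3]
      by_cases h4 : m / n = i₀
      · rw [if_pos h4, h4, hp1]
      · rw [if_neg h4, hp2 i₀ (m / n) (Ne.symm h4), Matrix.zero_apply, zero_mul]
    rw [← Finset.sum_fiberwise_of_maps_to (s := F) (t := F.image (· / n)) (g := (· / n))
      (fun m hm => Finset.mem_image_of_mem _ hm)]
    refine Finset.sum_eq_zero fun i₀ _ => ?_
    have h5 : ∑ m ∈ F with m / n = i₀, (c (m / n) * p (m / n)) s (t m) * r m =
        ∑ l, c i₀ s l * ∑ m ∈ F with m / n = i₀, p i₀ l (t m) * r m := by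
      have h6 : ∀ l, c i₀ s l * ∑ m ∈ F with m / n = i₀, p i₀ l (t m) * r m =
          ∑ m ∈ F with m / n = i₀, c i₀ s l * (p i₀ l (t m) * r m) := fun l => Finset.mul_sum _ _ _
      rw [Finset.sum_congr rfl fun l _ => h6 l, Finset.sum_comm]
      refine Finset.sum_congr rfl fun m hm => ?_
      rw [(Finset.mem_filter.1 hm).2, Matrix.mul_apply, Finset.sum_mul]
      exact Finset.sum_congr rfl fun l _ => mul_assoc _ _ _
    refine h5.trans (Finset.sum_eq_zero fun l _ => ?_)
    rw [key, mul_zero]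
  choose X hX using hrow
  refine ⟨Matrix.of X, fun i => ?_⟩
  ext s t'
  have h1 : (i * n + (t' : ℕ)) / n = i := by
    rw [mul_comm, Nat.mul_add_div hn, Nat.div_eq_of_lt t'.2, add_zero]
  have h2 : t (i * n + (t' : ℕ)) = t' := by
    apply Fin.ext
    rw [ht, mul_comm, Nat.mul_add_mod, Nat.mod_eq_of_lt t'.2]
  have h3 := hX s (i * n + (t' : ℕ))
  rw [h1, h2] at h3
  rw [Matrix.mul_apply]
  exact h3

end Pool.Agent.H62W
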