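import Pool.Agent.H62W.Stm

set_option autoImplicit false

namespace Pool.Agent.H62W

open Finset MulOpposite PowerSeries

universe u

variable {S : Type u} [Ring S]

/-- the invariant of the recursion: `Z` is the sum of the elements found so far, `r` the remainder -/
structure Inv (b : S⟦X⟧) (k : ℕ) (st : S⟦X⟧ × S⟦X⟧) : Prop where
  idem : constantCoeff st.1 * constantCoeff st.1 = constantCoeff st.1
  zp : st.1 * C (constantCoeff st.1) = st.1
  divZ : ∃ t, X ^ k * st.1 = b * t
  divr : ∃ t, X ^ k * st.2 = b * t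
  ann : ∀ η : S⟦X⟧, η * st.1 = 0 → η * b = X ^ k * (η * st.2)

/-- one step -/
structure Nx (st st' : S⟦X⟧ × S⟦X⟧) : Prop where
  zz : (st'.1 - st.1) * C (constantCoeff (st'.1 - st.1)) = st'.1 - st.1
  pp : constantCoeff (st'.1 - st.1) * constantCoeff (st'.1 - st.1) =
    constantCoeff (st'.1 - st.1)
  Pp : constantCoeff st.1 * constantCoeff (st'.1 - st.1) = 0
  pP : constantCoeff (st'.1 - st.1) * constantCoeff st.1 = 0

theorem step (hS : VNR S) (b : S⟦X⟧) (k : ℕ) (st : S⟦X⟧ × S⟦X⟧) (h : Inv b k st) :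
    ∃ st', Inv b (k + 1) st' ∧ Nx st st' := by
  obtain ⟨Z, r⟩ := st
  obtain ⟨h1, h2, ⟨t1, h3⟩, ⟨t2, h4⟩, h5⟩ := h
  simp only at h1 h2 h3 h4 h5
  set P := constantCoeff Z with hP
  set ρ := (1 - P) * constantCoeff r with hρ
  obtain ⟨s0, hs0⟩ := hS ρ
  set s := s0 * ρ * s0 with hs
  have hs1 : ρ * s * ρ = ρ := by
    rw [hs]
    calc ρ * (s0 * ρ * s0) * ρ = (ρ * s0 * ρ) * s0 * ρ := by noncomm_ring
      _ = ρ := by rw [hs0, hs0]
  have hs2 : s * ρ * s = s := by
    rw [hs]
    calc s0 * ρ * s0 * ρ * (s0 * ρ * s0) = s0 * (ρ * s0 * ρ) * s0 * ρ * s0 := by noncomm_ring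
      _ = s0 * ρ * s0 * ρ * s0 := by rw [hs0]
      _ = s0 * (ρ * s0 * ρ) * s0 := by noncomm_ring
      _ = s0 * ρ * s0 := by rw [hs0]
  have hPρ : P * ρ = 0 := by
    rw [hρ, ← mul_assoc, mul_sub, mul_one, h1, sub_self, zero_mul]
  have hQρ : (1 - P) * ρ = ρ := by rw [sub_mul, one_mul, hPρ, sub_zero]
  have hP1 : (1 - P) * P = 0 := by rw [sub_mul, one_mul, h1, sub_self]
  -- the corrected remainder
  set r' := r - Z * C (constantCoeff r) with hr'
  have hr'c : constantCoeff r' = ρ := by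
    rw [hr', map_sub, map_mul, constantCoeff_C, hρ, sub_mul, one_mul]
  set z := r' * C (s * (1 - P)) with hz
  set p := ρ * s * (1 - P) with hp
  have hzc : constantCoeff z = p := by
    rw [hz, map_mul, constantCoeff_C, hr'c, hp]
    exact (mul_assoc ρ s (1 - P)).symm
  have hpp : p * p = p := by
    calc p * p = ρ * s * ((1 - P) * ρ) * s * (1 - P) := by rw [hp]; noncomm_ring
      _ = (ρ * s * ρ) * s * (1 - P) := by rw [hQρ]
      _ = p := by rw [hs1, hp]
  have hPp : P * p = 0 := by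
    calc P * p = (P * ρ) * s * (1 - P) := by rw [hp]; noncomm_ring
      _ = 0 := by rw [hPρ]; noncomm_ring
  have hpP : p * P = 0 := by
    calc p * P = ρ * s * ((1 - P) * P) := by rw [hp]; noncomm_ring
      _ = 0 := by rw [hP1, mul_zero]
  have hpρ : p * ρ = ρ := by
    calc p * ρ = ρ * s * ((1 - P) * ρ) := by rw [hp]; noncomm_ring
      _ = ρ := by rw [hQρ, hs1]
  have hzp : z * C p = z := by
    rw [hz, mul_assoc, ← map_mul]
    congr 2
    calc s * (1 - P) * p = s * ((1 - P) * ρ) * s * (1 - P) := by rw [hp]; noncomm_ring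
      _ = (s * ρ * s) * (1 - P) := by rw [hQρ]
      _ = s * (1 - P) := by rw [hs2]
  have hzP : z * C P = 0 := by
    rw [hz, mul_assoc, ← map_mul, mul_assoc, hP1, mul_zero, map_zero, mul_zero]
  have hZp : Z * C p = 0 := by
    rw [← h2, mul_assoc, ← map_mul, hPp, map_zero, mul_zero]
  -- the new remainder
  have hc0 : constantCoeff (r' - z * C ρ) = 0 := by
    rw [map_sub, map_mul, constantCoeff_C, hr'c, hzc, hpρ, sub_self]
  obtain ⟨r1, hr1⟩ : ∃ r1, r' - z * C ρ = X * r1 := by
    have := eq_X_mul_shift_add_const (r' - z * C ρ)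
    rw [hc0, map_zero, add_zero] at this
    exact ⟨_, this⟩
  have hXc : ∀ w : S⟦X⟧, X ^ (k + 1) * w = X * (X ^ k * w) := by
    intro w
    rw [pow_succ', mul_assoc]
  have hbX : ∀ t : S⟦X⟧, X * (b * t) = b * (X * t) := by
    intro t
    have : X * (b * t) = (b * t) * X := (commute_X (b * t)).symm.eq
    rw [this, mul_assoc, (commute_X t).eq]
  have hXr' : X ^ k * r' = b * (t2 - t1 * C (constantCoeff r)) := by
    rw [hr', mul_sub, ← mul_assoc, h3, h4, mul_sub, mul_assoc]
  have hXz : X ^ k * z = b * ((t2 - t1 * C (constantCoeff r)) * C (s * (1 - P))) := by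
    rw [hz, ← mul_assoc, hXr', mul_assoc]
  refine ⟨(Z + z, r1), ⟨?_, ?_, ?_, ?_, ?_⟩, ?_, ?_, ?_, ?_⟩
  · show constantCoeff (Z + z) * constantCoeff (Z + z) = constantCoeff (Z + z)
    rw [map_add, hzc, ← hP, mul_add, add_mul, add_mul, h1, hPp, hpP, hpp]
    simp
  · show (Z + z) * C (constantCoeff (Z + z)) = Z + z
    rw [map_add, hzc, ← hP, map_add, mul_add, add_mul, add_mul, h2, hZp, hzP, hzp]
    simp
  · show ∃ t, X ^ (k + 1) * (Z + z) = b * t
    refine ⟨X * (t1 + (t2 - t1 * C (constantCoeff r)) * C (s * (1 - P))), ?_⟩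
    rw [hXc, mul_add, h3, hXz, ← mul_add, hbX]
  · show ∃ t, X ^ (k + 1) * r1 = b * t
    refine ⟨(t2 - t1 * C (constantCoeff r)) -
      (t2 - t1 * C (constantCoeff r)) * C (s * (1 - P)) * C ρ, ?_⟩
    rw [pow_succ, mul_assoc, ← hr1, mul_sub, ← mul_assoc, hXz, hXr', mul_assoc, ← mul_sub]
  · show ∀ η : S⟦X⟧, η * (Z + z) = 0 → η * b = X ^ (k + 1) * (η * r1)
    intro η hη
    have e1 : η * Z = 0 := by
      have : (Z + z) * C P = Z := by rw [add_mul, h2, hzP, add_zero]
      rw [← this, ← mul_assoc, hη, zero_mul]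
    have e2 : η * z = 0 := by
      have := hη
      rw [mul_add, e1, zero_add] at this
      exact this
    have e3 : η * r = η * r' := by
      rw [hr', mul_sub, ← mul_assoc, e1, zero_mul, sub_zero]
    have e4 : η * r' = X * (η * r1) := by
      have : r' = z * C ρ + X * r1 := by rw [← hr1]; abel
      rw [this, mul_add, ← mul_assoc, e2, zero_mul, zero_add, ← mul_assoc, (commute_X η).eq,
        mul_assoc]
    rw [h5 η e1, e3, e4, pow_succ, mul_assoc]
  all_goals
    show _ = _
    simp only [add_sub_cancel_left, hzc, ← hP]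
    first
      | exact hzp
      | exact hpp
      | exact hPp
      | exact hpP

/-- the normal form -/
theorem normal (hS : VNR S) (b : S⟦X⟧) : ∃ (z : ℕ → S⟦X⟧),
    Orth (fun k => constantCoeff (z k)) ∧ (∀ k, z k * C (constantCoeff (z k)) = z k) ∧
    (∀ k, ∃ t, X ^ (k + 1) * z k = b * t) ∧
    ∀ k (η : S⟦X⟧), (∀ i < k, η * z i = 0) → ∃ w, η * b = X ^ k * w := by
  have hst : ∀ k (st : {st : S⟦X⟧ × S⟦X⟧ // Inv b k st}),
      ∃ st' : {st : S⟦X⟧ × S⟦X⟧ // Inv b (k + 1) st}, Nx st.1 st'.1 := by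
    intro k st
    obtain ⟨st', h1, h2⟩ := step hS b k st.1 st.2
    exact ⟨⟨st', h1⟩, h2⟩
  choose nxt hnxt using hst
  have h0 : Inv b 0 ((0, b) : S⟦X⟧ × S⟦X⟧) := by
    refine ⟨by simp, by simp, ⟨0, by simp⟩, ⟨1, by simp⟩, ?_⟩
    intro η _
    simp
  let st : (k : ℕ) → {st : S⟦X⟧ × S⟦X⟧ // Inv b k st} :=
    fun k => Nat.rec ⟨(0, b), h0⟩ (fun k s => nxt k s) k
  have hsucc : ∀ k, Nx (st k).1 (st (k + 1)).1 := fun k => hnxt k (st k)
  let z : ℕ → S⟦X⟧ := fun k => (st (k + 1)).1.1 - (st k).1.1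
  have hZ0 : (st 0).1.1 = 0 := rfl
  have hsum : ∀ k, (st k).1.1 = ∑ i ∈ range k, z i := by
    intro k
    induction k with
    | zero => simp [hZ0]
    | succ k ih => rw [sum_range_succ, ← ih]; simp [z]
  -- the constant coefficients
  have hPsum : ∀ k, constantCoeff (st k).1.1 = ∑ i ∈ range k, constantCoeff (z i) := by
    intro k
    rw [hsum, map_sum]
  have hpp : ∀ k, constantCoeff (z k) * constantCoeff (z k) = constantCoeff (z k) :=
    fun k => (hsucc k).pp
  have hPp : ∀ k, constantCoeff (st k).1.1 * constantCoeff (z k) = 0 := fun k => (hsucc k).Pp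
  have hpP : ∀ k, constantCoeff (z k) * constantCoeff (st k).1.1 = 0 := fun k => (hsucc k).pP
  have key : ∀ k, (∀ i < k, constantCoeff (z i) * constantCoeff (st k).1.1 =
      constantCoeff (z i)) ∧ (∀ i < k, constantCoeff (st k).1.1 * constantCoeff (z i) =
      constantCoeff (z i)) := by
    intro k
    induction k with
    | zero => simp
    | succ k ih =>
      have e : constantCoeff (st (k + 1)).1.1 =
          constantCoeff (st k).1.1 + constantCoeff (z k) := by
        rw [hPsum (k + 1), sum_range_succ, ← hPsum k]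
      have e1 : ∀ i < k, constantCoeff (z i) * constantCoeff (z k) = 0 := by
        intro i hi
        rw [← ih.1 i hi, mul_assoc, hPp, mul_zero]
      have e2 : ∀ i < k, constantCoeff (z k) * constantCoeff (z i) = 0 := by
        intro i hi
        rw [← ih.2 i hi, ← mul_assoc, hpP, zero_mul]
      constructor
      · intro i hi
        rw [e, mul_add]
        rcases Nat.lt_succ_iff_lt_or_eq.1 hi with h | h
        · rw [ih.1 i h, e1 i h, add_zero]
        · rw [h, hpP, hpp, zero_add]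
      · intro i hi
        rw [e, add_mul]
        rcases Nat.lt_succ_iff_lt_or_eq.1 hi with h | h
        · rw [ih.2 i h, e2 i h, add_zero]
        · rw [h, hPp, hpp, zero_add]
  refine ⟨z, ⟨hpp, ?_⟩, fun k => (hsucc k).zz, ?_, ?_⟩
  · intro i j hij
    rcases lt_or_gt_of_ne hij with h | h
    · show constantCoeff (z i) * constantCoeff (z j) = 0
      rw [← (key j).1 i h, mul_assoc, hPp, mul_zero]
    · show constantCoeff (z i) * constantCoeff (z j) = 0
      rw [← (key i).2 j h, ← mul_assoc, hpP, zero_mul]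
  · intro k
    obtain ⟨t1, h1⟩ := (st (k + 1)).2.divZ
    obtain ⟨t2, h2⟩ := (st k).2.divZ
    refine ⟨t1 - X * t2, ?_⟩
    have hbX : X * (b * t2) = b * (X * t2) := by
      have : X * (b * t2) = (b * t2) * X := (commute_X (b * t2)).symm.eq
      rw [this, mul_assoc, (commute_X t2).eq]
    show X ^ (k + 1) * ((st (k + 1)).1.1 - (st k).1.1) = _
    rw [mul_sub, h1, pow_succ', mul_assoc, h2, hbX, mul_sub]
  · intro k η hη
    refine ⟨_, (st k).2.ann η ?_⟩
    rw [hsum, mul_sum]
    exact sum_eq_zero fun i hi => hη i (mem_range.1 hi)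

theorem t_SUF : S_SUF.{u} := by
  intro S _ hS hR hI a0 b0 hab0
  set a : S⟦X⟧ := mk a0 with ha
  set b : S⟦X⟧ := mk b0 with hb
  have hab : a * b = 0 := by
    ext k
    rw [coeff_mul, map_zero]
    simpa [cv, ha, hb] using hab0 k
  obtain ⟨z, hO, hzz, hdiv, hann⟩ := normal hS b
  -- `a` kills `z`
  have haz : ∀ k, a * z k = 0 := by
    intro k
    obtain ⟨t, ht⟩ := hdiv k
    have : X ^ (k + 1) * (a * z k) = X ^ (k + 1) * 0 := by
      rw [mul_zero, ← mul_assoc, X_pow_mul, mul_assoc, ht, ← mul_assoc, hab, zero_mul]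
    exact X_pow_mul_cancel this
  -- the automorphism
  have hx : ∀ n : ℕ, ∃ x : S, ∀ k, x * constantCoeff (z k) = coeff n (z k) := by
    intro n
    obtain ⟨x, hx⟩ := hR (fun k => constantCoeff (z k)) (fun k => coeff n (z k)) hO
    refine ⟨x, fun k => ?_⟩
    rw [hx k]
    show coeff n (z k) * constantCoeff (z k) = _
    rw [← coeff_mul_C, hzz]
  choose x hx using hx
  set φ : S⟦X⟧ := mk (fun n => if n = 0 then 1 else x n) with hφ
  have hφz : ∀ k, φ * C (constantCoeff (z k)) = z k := by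
    intro k
    ext n
    rw [coeff_mul_C, hφ, coeff_mk]
    split_ifs with hn
    · rw [hn, one_mul, coeff_zero_eq_constantCoeff_apply]
    · exact hx n k
  have hφc : constantCoeff φ = ((1 : Sˣ) : S) := by
    rw [← coeff_zero_eq_constantCoeff_apply, hφ, coeff_mk]
    simp
  set ψ := invOfUnit φ 1 with hψ
  have h1 : φ * ψ = 1 := mul_invOfUnit φ 1 hφc
  have h2 : ψ * φ = 1 := invOfUnit_mul φ 1 hφc
  have hψz : ∀ k, ψ * z k = C (constantCoeff (z k)) := by
    intro k
    conv_lhs => rw [← hφz k]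
    rw [← mul_assoc, h2, one_mul]
  -- interpolation
  obtain ⟨E0, hE1, hE2⟩ := hI (fun i => coeff i (a * φ)) (fun k => constantCoeff (z k)) (by
    intro i k
    show coeff i (a * φ) * constantCoeff (z k) = 0
    rw [← coeff_mul_C, mul_assoc, hφz, haz, map_zero])
  set E : S⟦X⟧ := φ * C E0 * ψ with hE
  have haE : a * E = 0 := by
    have : a * φ * C E0 = 0 := by
      ext i
      rw [coeff_mul_C, map_zero]
      exact hE1 i
    rw [hE, ← mul_assoc, ← mul_assoc, this, zero_mul]
  have hη : (1 - C E0) * ψ * b = 0 := by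
    ext k
    obtain ⟨w, hw⟩ := hann (k + 1) ((1 - C E0) * ψ) (by
      intro i _
      rw [mul_assoc, hψz, sub_mul, one_mul, ← map_mul, hE2, sub_self])
    rw [hw, map_zero, coeff_X_pow_mul', if_neg (by omega)]
  have hEb : E * b = b := by
    have h3 : C E0 * ψ * b = ψ * b := by
      rw [sub_mul, one_mul, sub_mul, sub_eq_zero] at hη
      exact hη.symm
    rw [hE, mul_assoc, mul_assoc, ← mul_assoc (C E0), h3, ← mul_assoc, h1, one_mul]
  refine ⟨fun k => coeff k E, fun k => ?_, fun k => ?_⟩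
  · have := congrArg (coeff k) haE
    rw [coeff_mul, map_zero] at this
    simpa [cv, ha] using this
  · have := congrArg (coeff k) hEb
    rw [coeff_mul] at this
    simpa [cv, hb] using this

end Pool.Agent.H62W
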