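import Mathlib

/-!
# PROJECT WP (helper62), MP_d6aa4f_al: rings `A` with `w.gl.dim A[[x]] = 1`. Statements of the pieces (NOT results)

Every piece: file `Pool/Agent/H62W/NAME.lean`, `import Pool.Agent.H62W.Stm`, namespace `Pool.Agent.H62W`,
theorem `t_NAME (h1 : S_X) ... : S_NAME` (used pieces as hypotheses). All rings are noncommutative.
-/

set_option autoImplicit false

namespace Pool.Agent.H62W

open Finset MulOpposite

universe u

/-- flat (left) module: every finite relation is trivial -/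
def IsFlat (R M : Type u) [Ring R] [AddCommGroup M] [Module R M] : Prop :=
  ∀ (n : ℕ) (r : Fin n → R) (m : Fin n → M), ∑ i, r i • m i = 0 →
    ∃ (k : ℕ) (c : Fin n → Fin k → R) (y : Fin k → M),
      (∀ i, m i = ∑ j, c i j • y j) ∧ ∀ j, ∑ i, r i * c i j = 0

/-- flat dimension at most one: a flat resolution of length one -/
def FD1 (R M : Type u) [Ring R] [AddCommGroup M] [Module R M] : Prop :=
  ∃ (F : Type u) (_ : AddCommGroup F) (_ : Module R F) (π : F →ₗ[R] M),
    Function.Surjective π ∧ IsFlat R F ∧ IsFlat R (LinearMap.ker π)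

/-- the weak global dimension is one -/
def WGD1 (R : Type u) [Ring R] : Prop :=
  (∀ (M : Type u) [AddCommGroup M] [Module R M], FD1 R M) ∧
    ∃ (M : Type u) (_ : AddCommGroup M) (_ : Module R M), ¬ IsFlat R M

/-- the criterion for weak global dimension at most one -/
def SQ (R : Type u) [Ring R] : Prop :=
  ∀ (n : ℕ) (a b : Matrix (Fin n) (Fin n) R), a * b = 0 →
    ∃ E : Matrix (Fin n) (Fin n) R, a * E = 0 ∧ E * b = b

/-- Cauchy product of sequences -/
def cv {S : Type u} [Ring S] (a b : ℕ → S) (k : ℕ) : S := ∑ p ∈ antidiagonal k, a p.1 * b p.2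

/-- the criterion for `1 × 1` matrices over `S[[x]]`, in terms of sequences -/
def W (S : Type u) [Ring S] : Prop :=
  ∀ a b : ℕ → S, (∀ k, cv a b k = 0) → ∃ E : ℕ → S, (∀ k, cv a E k = 0) ∧ ∀ k, cv E b k = b k

/-- von Neumann regular -/
def VNR (S : Type u) [Ring S] : Prop := ∀ a : S, ∃ s, a * s * a = a

/-- orthogonal idempotents -/
def Orth {S : Type u} [Ring S] (p : ℕ → S) : Prop :=
  (∀ i, p i * p i = p i) ∧ ∀ i j, i ≠ j → p i * p j = 0

/-- countable interpolation -/
def IP (S : Type u) [Ring S] : Prop :=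
  ∀ a b : ℕ → S, (∀ i j, a i * b j = 0) → ∃ E, (∀ i, a i * E = 0) ∧ ∀ j, E * b j = b j

/-- right `ℵ₀`-injective: homomorphisms of right modules from a countably generated right ideal `∑ b i S`
to `S` are given by left multiplications -/
def RIN (S : Type u) [Ring S] : Prop :=
  ∀ b c : ℕ → S, (∀ (s : Finset ℕ) (r : ℕ → S), ∑ i ∈ s, b i * r i = 0 → ∑ i ∈ s, c i * r i = 0) →
    ∃ x, ∀ i, x * b i = c i

/-- the same for right ideals generated by orthogonal idempotents -/
def RIP (S : Type u) [Ring S] : Prop :=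
  ∀ p c : ℕ → S, Orth p → ∃ x, ∀ i, x * p i = c i * p i

/-- FLA (80 lines). The criterion implies that all modules have flat dimension at most one.
PROOF. `F = M →₀ R` (free, `π = Finsupp.linearCombination R id`). Free modules and all their submodules `K` are
flat: let `∑ r i • k i = 0`, `k i ∈ K` (`i : Fin n`). Only finitely many basis elements (`l` of them) occur, so
`k i = ∑ j, C i j • e j` and `∑ i, r i * C i j = 0` for all `j`. With `N = max n l` (or `n + l`) extend the row
`r` to the `N × N` matrix `a` with first row `r` and zeros elsewhere and `C` by zeros to an `N × N` matrix `b`: `a * b = 0`.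
So there is `E` with `a * E = 0`, `E * b = b`. Hence (entries with `i, i' < n`; the rows `i' ≥ n` of `b` are zero)
`k i = ∑ i', E i i' • k i'` and `∑ i, r i * E i i' = 0`: the relation is trivial, with `y = k`, `c = E`. -/
def S_FLA : Prop := ∀ (R : Type u) [Ring R], SQ R →
  ∀ (M : Type u) [AddCommGroup M] [Module R M], FD1 R M

/-- FLB (150 lines). The converse.
PROOF. (1) Flat modules `F` satisfy the criterion for several relations: if `∑ i, r l i • m i = 0` for all `l : Fin q`,
then there are `c`, `y` with `m i = ∑ j, c i j • y j` and `∑ i, r l i * c i j = 0` for all `l, j` (induction on `q`: apply the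
case `q - 1`, then flatness to the relation `∑ j, (∑ i, r l i * c i j) • y j = 0` of the last `l`).
(2) One column: let `a` be any `n × n` matrix, `v : Fin n → R` with `a *ᵥ v = 0`. Let `J = ∑ R v i` (`Submodule.span R (Set.range v)`),
`M = R ⧸ J`, `π : F → M` as in FD1, `f ∈ F` with `π f = mk 1`. Then `v i • f ∈ K = ker π` and `∑ i, a l i • (v i • f) = 0`.
By (1) for `K`: `v i • f = ∑ j, c i j • k j`, `k j ∈ K`, `a * c = 0` (`j : Fin m`). Now the relations
`v i • f - ∑ j, c i j • k j = 0` (`i : Fin n`) in `F`: by (1) there are `g l ∈ F`, `t l`, `s j l` in `R` with `f = ∑ t l • g l`,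
`k j = ∑ s j l • g l`, `v i * t l = ∑ j, c i j * s j l`. Let `π (g l) = mk (g' l)`. Then `1 - ∑ t l * g' l ∈ J`, so it is `∑ h i * v i`,
and `∑ l, s j l * g' l ∈ J`, so it is `∑ i, d j i * v i`. So `v i = v i * 1 = ∑ l, v i * t l * g' l + ∑ i', v i * h i' * v i'
= ∑ i', (∑ j, c i j * d j i' + v i * h i') * v i'`: `E i i' = ∑ j, c i j * d j i' + v i * h i'` has `E *ᵥ v = v` and
`a * E = 0` (as `a * c = 0`, `a *ᵥ v = 0`).
(3) All columns of `b`: by induction on the number of columns: if `a * E₁ = 0` and `E₁` fixes the first columns, let `v` be the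
next one, `a *ᵥ (v - E₁ *ᵥ v) = 0`, take `E₂` for `v - E₁ v`; then `E = E₁ + E₂ - E₂ * E₁` works. -/
def S_FLB : Prop := ∀ (R : Type u) [Ring R],
  (∀ (M : Type u) [AddCommGroup M] [Module R M], FD1 R M) → SQ R

/-- NFL (40 lines). PROOF. `M = A⟦X⟧ ⧸ span {X}` (left ideal). `X • mk 1 = 0`. If `M` is flat then `mk 1 = ∑ c j • y j` with
`X * c j = 0`, so `c j = 0` and `mk 1 = 0`, `1 = g * X`, constant coefficient `1 = 0`: contradiction. -/
def S_NFL : Prop := ∀ (A : Type u) [Ring A] [Nontrivial A],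
  ∃ (M : Type u) (_ : AddCommGroup M) (_ : Module (PowerSeries A) M), ¬ IsFlat (PowerSeries A) M

/-- MSQ (80 lines). Matrices over power series are power series over matrices.
PROOF. `a ↦ (fun k => a.map (PowerSeries.coeff k))`, inverse `a ↦ Matrix.of fun i j => PowerSeries.mk fun k => a k i j`;
`a * b` goes to `cv` (`PowerSeries.coeff_mul`, exchange the sums). -/
def S_MSQ : Prop := ∀ (A : Type u) [Ring A],
  SQ (PowerSeries A) ↔ ∀ n : ℕ, W (Matrix (Fin n) (Fin n) A)

/-- REG (60 lines). PROOF. `n = 2`, `a = !![C α, X; 0, 0]`, `b = !![X, 0; -C α, 0]`, `a * b = 0` (`X` is central). `E` with `a * E = 0`,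
`E * b = b`: entry (0,0) of `E * b = b`: `E 0 0 * X - E 0 1 * C α = X`; coefficient of `X`: `e00(0) - e01(1) α = 1`. Entry (0,0)
of `a * E = 0`: `C α * E 0 0 + X * E 1 0 = 0`, constant coefficient: `α e00(0) = 0`. So `α (1 + e01(1) α) = 0`, `s = - e01(1)`. -/
def S_REG : Prop := ∀ (A : Type u) [Ring A], SQ (PowerSeries A) → VNR A

/-- VMA (120 lines). Matrix rings over regular rings are regular.
PROOF. (McCoy) if `a - a * y * a` is regular (`= (a - aya) z (a - aya)`), then `a` is: `s = y + (1 - y a) z (1 - a y)`. Induction on `n` with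
`Fin (n+1)`, blocks `1 + n` (or index `Fin n ⊕ Unit`, or any order of elimination), with the idempotents
`e = diag (1, 0, ..)`, `f = 1 - e`: for `x` choose `y ∈ e S f` with `(f x e) y (f x e) = f x e` (regularity of columns
`f x e`: a column of length `n` is regular because the `n × n` matrix with this first column is; or directly), `x' = x - x y x`
has `f x' e = 0`; choose `z₁ ∈ e S e`, `z₂ ∈ f S f` with `(e x' e) z₁ (e x' e) = e x' e`, `(f x' f) z₂ (f x' f) = f x' f`;
`x'' = x' - x' (z₁ + z₂) x'` has `x'' = e x'' f`, a row, which is regular. -/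
def S_VMA : Prop := ∀ (A : Type u) [Ring A], VNR A → ∀ n : ℕ, VNR (Matrix (Fin n) (Fin n) A)

/-- ORT (80 lines). Orthogonalization.
PROOF of the first part: recursion. `Q k = ∑ j < k, q j`. Given `Q = Q k` (idempotent), let `β = α k * (1 - Q)`, `β * s * β = β`,
`g = s * β` (idempotent, `g * Q = 0`), `q k = (1 - Q) * g = (1 - Q) * s * α k * (1 - Q)`. Then `q k` is idempotent (`g (1 - Q) = g`), orthogonal to `Q`
on both sides, hence to all earlier `q j` (`q j = q j * Q = Q * q j`), and `α k * (Q + q k) = α k * Q + β s β = α k`. If `α i * z = 0`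
for all `i` then `q i * z = 0` for all `i` (induction). (Define `Q` by recursion: `Q 0 = 0`, `Q (k+1) = Q k + (1 - Q k) * s * α k * (1 - Q k)`.)
The second part is the mirror image: `p k = g * (1 - P)`, `g = β * s`, `β = (1 - P) * α k`, `β * s * β = β`. -/
def S_ORT : Prop := ∀ (S : Type u) [Ring S], VNR S → ∀ α : ℕ → S,
  (∃ q : ℕ → S, Orth q ∧ (∀ k, α k * ∑ j ∈ range (k + 1), q j = α k) ∧
    ∀ z, (∀ k, α k * z = 0) → ∀ k, q k * z = 0) ∧
  ∃ p : ℕ → S, Orth p ∧ (∀ k, (∑ j ∈ range (k + 1), p j) * α k = α k) ∧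
    ∀ z, (∀ k, z * α k = 0) → ∀ k, z * p k = 0

/-- NEC (60 lines, `t_NEC (h : S_ORT)`). PROOF. Given `a`, `b` with `a i * b j = 0`; let `q`, `p` be as in ORT for `a` and `b`. `q i * b j = 0` for all
`i, j`, so `q i * p j = 0`. Hence `cv q p = 0`. Take `E` with `cv q E = 0`, `cv E p = p`. Then `E 0` works: multiply
`∑_(i+j=k) E i * p j = p k` by `p k` on the right: `E 0 * p k = p k`; multiply `∑ q i * E j = 0` by `q k` on the left:
`q k * E 0 = 0`. And `a k = a k * ∑ q j`, `b k = (∑ p j) * b k`. -/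
def S_NEC : Prop := ∀ (S : Type u) [Ring S], VNR S → W S → IP S

/-- SUF (helper62). -/
def S_SUF : Prop := ∀ (S : Type u) [Ring S], VNR S → RIP S → IP S → W S

/-- COL (150 lines, `t_COL (h : S_ORT)`). Right `ℵ₀`-injectivity for countably generated submodules of `A^n`.
PROOF. Induction on `n` (`Fin (n+1)`, last coordinate `Fin.last n`). `n = 0`: relation with `s = {i}`, `r = 1` gives `c i = 0`.
Step: by ORT (second part) for `β i = b i (last)`: orthogonal idempotents `g k`, `(∑ j ≤ i, g j) * β i = β i`; one also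
needs `g k = ∑ j ≤ k, β j * ρ k j` (prove it again by the recursion of ORT, or: the right ideal `{z | z ∈ span of the β j, j ≤ k}`;
it is best to redo the recursion and carry along vectors `w k : Fin (n+1) → A`, `w k = ∑ j ≤ k, b j * ρ k j`, with last coordinate `g k` and
`w k * g k = w k`). Put `b' i = b i - ∑ k ≤ i, w k * β i` (last coordinate zero), `ω k = ∑ j ≤ k, c j * ρ k j`,
`c' i = c i - ∑ k ≤ i, ω k * β i`. The compatibility for `b, c` gives that for the first `n` coordinates of `b'` and `c'`: `x'` with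
`x' b' i = c' i`. Let `x_n` (RIN A, or RIP A from it) with `x_n * g k = ω k - x' (w k)` (`ω k * g k = ω k` by compatibility).
Then `x = (x', x_n)` has `x (w k) = ω k`, `x (b' i) = c' i`, so `x (b i) = c i`. -/
def S_COL : Prop := ∀ (A : Type u) [Ring A], VNR A → RIN A → ∀ (n : ℕ) (b : ℕ → Fin n → A) (c : ℕ → A),
  (∀ (s : Finset ℕ) (r : ℕ → A), (∀ l, ∑ i ∈ s, b i l * r i = 0) → ∑ i ∈ s, c i * r i = 0) →
  ∃ x : Fin n → A, ∀ i, ∑ l, x l * b i l = c i

/-- RIM (80 lines, `t_RIM (h : S_COL)`). PROOF. `n = 0` trivial. Enumerate the pairs `(i, t)`, `t : Fin n`, by `m ↦ (m / n, m % n)`. For a row `s` of the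
wanted matrix apply COL to the columns `(p i) · t` and the entries `(c i * p i) s t`. Compatibility: if a finite sum of
`(p i)(·, t) * r (i, t)` is `0`, i.e. `∑ i, p i *ᵥ ρ i = 0`, then multiplying by `p i` gives `p i *ᵥ ρ i = 0` for each `i`,
so `∑ (c i * p i) *ᵥ ρ i = 0`. -/
def S_RIM : Prop := ∀ (A : Type u) [Ring A], VNR A → RIN A → ∀ n : ℕ, RIP (Matrix (Fin n) (Fin n) A)

/-- OPP (100 lines). Opposite rings. PROOF. `W`: for `a, b : ℕ → S` apply `W Sᵐᵒᵖ` to `op ∘ b, op ∘ a` (`cv` is reversed, `antidiagonal` swap) and get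
`F` with `F * a = a`, `b * F = 0` in `S` reversed: `E = 1 - F` (the sequence `E 0 = 1 - F 0`, `E k = - F k`). `IP`: `E ↦ 1 - E`. The fourth
claim: `RingEquiv.mopMatrix : Matrix m m αᵐᵒᵖ ≃+* (Matrix m m α)ᵐᵒᵖ`. -/
def S_OPP : Prop :=
  (∀ (S : Type u) [Ring S], W Sᵐᵒᵖ → W S) ∧ (∀ (S : Type u) [Ring S], IP S → IP Sᵐᵒᵖ) ∧
  (∀ (S : Type u) [Ring S], VNR S → VNR Sᵐᵒᵖ) ∧
  ∀ (A : Type u) [Ring A] (n : ℕ), RIP (Matrix (Fin n) (Fin n) Aᵐᵒᵖ) → RIP (Matrix (Fin n) (Fin n) A)ᵐᵒᵖ

end Pool.Agent.H62W
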