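import Pool.Agent.H62W.Stm

/-!
# Project WP: the piece VMA (matrix rings over regular rings are regular)
-/

set_option autoImplicit false

namespace Pool.Agent.H62W

open Finset

universe u

namespace VMA

variable {A : Type u} [Ring A]

/-- a finitely generated left ideal is generated by an idempotent -/
theorem left (hA : VNR A) : ∀ (q : ℕ) (c : Fin q → A), ∃ s : Fin q → A, ∀ k, c k * ∑ j, s j * c j = c k := by
  intro q
  induction q with
  | zero => intro c; exact ⟨fun _ => 0, fun k => k.elim0⟩
  | succ q ih =>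
    intro c
    obtain ⟨s, hs⟩ := ih fun j => c j.succ
    set e := ∑ j, s j * c (Fin.succ j) with he
    obtain ⟨t, ht⟩ := hA (c 0 * (1 - e))
    refine ⟨Fin.cons ((1 - e) * t) (fun j => s j - (1 - e) * t * c 0 * s j), ?_⟩
    have h1 : ∑ j, (Fin.cons ((1 - e) * t) (fun j => s j - (1 - e) * t * c 0 * s j) : Fin (q + 1) → A) j * c j =
        e + (1 - e) * t * (c 0 * (1 - e)) := by
      rw [Fin.sum_univ_succ]
      simp only [Fin.cons_zero, Fin.cons_succ, sub_mul, Finset.sum_sub_distrib]
      have h3 : ∑ j, (1 * t * c 0 * s j * c (Fin.succ j) - e * t * c 0 * s j * c (Fin.succ j)) =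
          (1 * t - e * t) * c 0 * e := by
        rw [he, Finset.mul_sum]
        refine Finset.sum_congr rfl fun j _ => ?_
        noncomm_ring
      simp only [← he, ← Finset.sum_sub_distrib]
      rw [h3]
      noncomm_ring
    rw [h1]
    intro k
    refine Fin.cases ?_ (fun j => ?_) k
    · have h2 : c 0 * (e + (1 - e) * t * (c 0 * (1 - e))) = c 0 * e + c 0 * (1 - e) * t * (c 0 * (1 - e)) := by
        noncomm_ring
      rw [h2, ht]
      noncomm_ring
    · have h2 : c j.succ * (e + (1 - e) * t * (c 0 * (1 - e))) =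
          c j.succ * e + (c j.succ - c j.succ * e) * t * (c 0 * (1 - e)) := by
        noncomm_ring
      rw [h2, hs j]
      noncomm_ring

theorem mccoy {p q : ℕ} (M : Matrix (Fin p) (Fin q) A) (y z : Matrix (Fin q) (Fin p) A)
    (h : (M - M * y * M) * z * (M - M * y * M) = M - M * y * M) : ∃ N : Matrix (Fin q) (Fin p) A, M * N * M = M := by
  have h1 : M * ((1 : Matrix (Fin q) (Fin q) A) - y * M) = M - M * y * M := by
    rw [Matrix.mul_sub, Matrix.mul_one, Matrix.mul_assoc]
  have h2 : ((1 : Matrix (Fin p) (Fin p) A) - M * y) * M = M - M * y * M := by rw [Matrix.sub_mul, Matrix.one_mul]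
  refine ⟨y + ((1 : Matrix (Fin q) (Fin q) A) - y * M) * z * ((1 : Matrix (Fin p) (Fin p) A) - M * y), ?_⟩
  calc M * (y + ((1 : Matrix (Fin q) (Fin q) A) - y * M) * z * ((1 : Matrix (Fin p) (Fin p) A) - M * y)) * M
      = M * y * M + (M * ((1 : Matrix (Fin q) (Fin q) A) - y * M)) * z *
          (((1 : Matrix (Fin p) (Fin p) A) - M * y) * M) := by
        rw [Matrix.mul_add, Matrix.add_mul]
        simp only [Matrix.mul_assoc]
    _ = M * y * M + (M - M * y * M) := by rw [h1, h2, h]
    _ = M := by abel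

/-- a matrix with one nonzero column is regular -/
theorem column (hA : VNR A) {p q : ℕ} (D : Matrix (Fin p) (Fin (q + 1)) A) (hD : ∀ i j, D i (Fin.succ j) = 0) :
    ∃ z : Matrix (Fin (q + 1)) (Fin p) A, D * z * D = D := by
  obtain ⟨s, hs⟩ := left hA p fun i => D i 0
  refine ⟨Matrix.of fun i j => if i = 0 then s j else 0, ?_⟩
  have h1 : ∀ i j, (D * (Matrix.of fun i j => if i = 0 then s j else 0 : Matrix (Fin (q + 1)) (Fin p) A)) i j =
      D i 0 * s j := by
    intro i j
    rw [Matrix.mul_apply, Fin.sum_univ_succ]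
    simp [hD]
  ext i k
  rw [Matrix.mul_apply]
  simp only [h1]
  refine Fin.cases ?_ (fun j => ?_) k
  · simp only [mul_assoc, ← Finset.mul_sum]
    exact hs i
  · simp [hD]

theorem rect (hA : VNR A) (p : ℕ) : ∀ (q : ℕ) (M : Matrix (Fin p) (Fin q) A), ∃ N : Matrix (Fin q) (Fin p) A,
    M * N * M = M := by
  intro q
  induction q with
  | zero => intro M; exact ⟨0, by ext i j; exact j.elim0⟩
  | succ q ih =>
    intro M
    obtain ⟨N, hN⟩ := ih (Matrix.of fun i j => M i (Fin.succ j))
    set y : Matrix (Fin (q + 1)) (Fin p) A := Matrix.of (Fin.cons 0 fun i j => N i j) with hy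
    have h1 : M * y = (Matrix.of fun i j => M i (Fin.succ j) : Matrix (Fin p) (Fin q) A) * N := by
      ext i j
      rw [Matrix.mul_apply, Matrix.mul_apply, Fin.sum_univ_succ]
      simp [hy]
    obtain ⟨z, hz⟩ := column hA (M - M * y * M) (by
      intro i j
      rw [Matrix.sub_apply, h1]
      have h2 := congrFun (congrFun hN i) j
      rw [Matrix.mul_apply] at h2 ⊢
      simp only [Matrix.of_apply] at h2
      rw [h2, sub_self])
    exact mccoy M y z hz

end VMA

theorem t_VMA : S_VMA.{u} := by
  intro A _ hA n M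
  exact VMA.rect hA n n M

end Pool.Agent.H62W
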